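import Pool.Agent.N463.MI.Stm

/-! # MI/H03: the q-binomial theorem in `ℤ[[X]]` (helper570) -/

set_option autoImplicit false

open Finset

noncomputable section

namespace Pool.Agent.N570.MI

open Pool.Agent.N463.MI PowerSeries

/-- the inverse of `1 - X ^ (k + 1)` -/
def v (k : ℕ) : PowerSeries ℤ := PowerSeries.invOfUnit (1 - X ^ (k + 1)) 1

lemma v_mul (k : ℕ) : (1 - X ^ (k + 1)) * v k = 1 := by
  unfold v
  apply PowerSeries.mul_invOfUnit
  simp

/-- the coefficients -/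
def u (a : ℤ) : ℕ → PowerSeries ℤ
  | 0 => 1
  | l + 1 => u a l * (1 - C a * X ^ l) * v l

lemma u_zero (a : ℤ) : u a 0 = 1 := rfl

lemma u_succ (a : ℤ) (l : ℕ) : u a (l + 1) = u a l * (1 - C a * X ^ l) * v l := rfl

lemma u_rec (a : ℤ) (l : ℕ) : u a (l + 1) * (1 - X ^ (l + 1)) = u a l * (1 - C a * X ^ l) := by
  rw [u_succ]
  linear_combination u a l * (1 - C a * X ^ l) * v_mul l

lemma DD_succ (a : ℤ) (l : ℕ) : DD a (l + 1) = DD a l * ((1 - C a * X ^ (l + 1)) * v l) := by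
  unfold DD v
  rw [prod_range_succ]

lemma u_DD (a : ℤ) (l : ℕ) : u a (l + 1) = (1 - C a) * DD a l * v l := by
  induction l with
  | zero =>
    rw [u_succ, u_zero]
    unfold DD
    simp
  | succ l ih =>
    rw [u_succ, ih, DD_succ]
    ring

lemma DD_sub (a : ℤ) (l : ℕ) : DD a (l + 1) - DD a l = X ^ (l + 1) * u a (l + 1) := by
  rw [u_DD, DD_succ]
  linear_combination DD a l * (v_mul l)

/-- the truncated series -/
def S (a : ℤ) (n i : ℕ) : PowerSeries ℤ := ∑ l ∈ range (n + 1), (-1) ^ l * X ^ ((i + 1) * l) * u a l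

lemma S_eq (a : ℤ) (n i : ℕ) : (1 + X ^ (i + 1)) * S a n i - (1 + C a * X ^ (i + 1)) * S a n (i + 1) =
    (-1) ^ n * X ^ ((i + 1) * (n + 1)) * u a n * (1 - C a * X ^ n) := by
  induction n with
  | zero =>
    unfold S
    simp [u_zero]
    ring
  | succ n ih =>
    have h1 : ∀ i, S a (n + 1) i = S a n i + (-1) ^ (n + 1) * X ^ ((i + 1) * (n + 1)) * u a (n + 1) := by
      intro i
      unfold S
      rw [sum_range_succ _ (n + 1)]
    rw [h1, h1]
    have e1 : (X : PowerSeries ℤ) ^ ((i + 1 + 1) * (n + 1)) = X ^ ((i + 1) * (n + 1)) * X ^ (n + 1) := by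
      rw [← pow_add]; congr 1; ring
    have e2 : (X : PowerSeries ℤ) ^ ((i + 1) * (n + 1 + 1)) = X ^ ((i + 1) * (n + 1)) * X ^ (i + 1) := by
      rw [← pow_add, Nat.mul_succ]
    rw [e1, e2]
    linear_combination ih - (-1) ^ n * X ^ ((i + 1) * (n + 1)) * u_rec a n

lemma S_dvd (a : ℤ) (n i : ℕ) : X ^ (n + 1) ∣
    (1 + X ^ (i + 1)) * S a n i - (1 + C a * X ^ (i + 1)) * S a n (i + 1) := by
  rw [S_eq]
  have h1 : (X : PowerSeries ℤ) ^ (n + 1) ∣ X ^ ((i + 1) * (n + 1)) := pow_dvd_pow _ (by nlinarith)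
  exact ((h1.mul_left _).mul_right _).mul_right _

lemma S_prod (a : ℤ) (n m : ℕ) : X ^ (n + 1) ∣
    S a n 0 * ∏ i ∈ range m, (1 + X ^ (i + 1)) -
      (∏ i ∈ range m, (1 + C a * X ^ (i + 1))) * S a n m := by
  induction m with
  | zero => simp
  | succ m ih =>
    rw [prod_range_succ, prod_range_succ]
    have h1 := S_dvd a n m
    have h2 := (ih.mul_right (1 + X ^ (m + 1))).add (h1.mul_left (∏ i ∈ range m, (1 + C a * X ^ (i + 1))))
    convert h2 using 1
    ring

lemma S_one (a : ℤ) (n i : ℕ) (h : n ≤ i) : X ^ (n + 1) ∣ S a n i - 1 := by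
  unfold S
  rw [sum_range_succ']
  simp only [mul_zero, pow_zero, u_zero, mul_one, add_sub_cancel_right]
  refine Finset.dvd_sum fun l _ => ?_
  have h1 : (X : PowerSeries ℤ) ^ (n + 1) ∣ X ^ ((i + 1) * (l + 1)) := pow_dvd_pow _ (by nlinarith)
  exact (h1.mul_left _).mul_right _

lemma coe_dpoly (a : ℤ) (L : ℕ) : ((dpoly a L : Polynomial ℤ) : PowerSeries ℤ) =
    ∏ i ∈ range L, (1 + C a * X ^ (i + 1)) := by
  unfold dpoly
  have h := map_prod (Polynomial.coeToPowerSeries.ringHom (R := ℤ))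
    (fun k => 1 + Polynomial.C a * Polynomial.X ^ (k + 1)) (range L)
  simp only [Polynomial.coeToPowerSeries.ringHom_apply] at h
  rw [h]
  refine prod_congr rfl fun k _ => ?_
  simp only [Polynomial.coe_add, Polynomial.coe_one, Polynomial.coe_mul, Polynomial.coe_C,
    Polynomial.coe_pow, Polynomial.coe_X]

theorem t_H03 (g : G01) : H03 := by
  intro a n hn
  have h0 : ∑ l ∈ range n, (-1) ^ (l + 1) *
      (PowerSeries.coeff n (DD a (l + 1)) - PowerSeries.coeff n (DD a l)) =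
      PowerSeries.coeff n (S a n 0) := by
    unfold S
    rw [map_sum, sum_range_succ']
    have h1 : PowerSeries.coeff n ((-1) ^ 0 * X ^ ((0 + 1) * 0) * u a 0) = (0 : ℤ) := by
      simp [u_zero, PowerSeries.coeff_one]
      omega
    rw [h1, add_zero]
    refine sum_congr rfl fun l _ => ?_
    rw [← map_sub, DD_sub]
    have h2 : ((-1 : PowerSeries ℤ)) ^ (l + 1) * X ^ ((0 + 1) * (l + 1)) * u a (l + 1) =
        C ((-1) ^ (l + 1)) * (X ^ (l + 1) * u a (l + 1)) := by
      rw [map_pow, map_neg, map_one]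
      ring
    rw [h2, PowerSeries.coeff_C_mul]
  rw [h0]
  set L := n + 1 with hL
  -- the product
  have h1 : X ^ (n + 1) ∣ S a n 0 * ((dpoly 1 L : Polynomial ℤ) : PowerSeries ℤ) -
      ((dpoly a L : Polynomial ℤ) : PowerSeries ℤ) := by
    have h2 := S_prod a n L
    have h3 := (S_one a n L (by omega)).mul_left (∏ i ∈ range L, (1 + C a * X ^ (i + 1)))
    have h4 := h2.add h3
    rw [coe_dpoly, coe_dpoly]
    convert h4 using 1
    simp only [map_one, one_mul]
    ring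
  have h2 : X ^ (n + 1) ∣ ((dpoly 1 L : Polynomial ℤ) : PowerSeries ℤ) *
      ((fpoly a L : Polynomial ℤ) : PowerSeries ℤ) - ((dpoly a L : Polynomial ℤ) : PowerSeries ℤ) := by
    rw [PowerSeries.X_pow_dvd_iff]
    intro m hm
    rw [map_sub, ← Polynomial.coe_mul, Polynomial.coeff_coe, Polynomial.coeff_coe,
      (g a L m (by omega)).2.2, sub_self]
  have h3 : X ^ (n + 1) ∣ ((dpoly 1 L : Polynomial ℤ) : PowerSeries ℤ) *
      (S a n 0 - ((fpoly a L : Polynomial ℤ) : PowerSeries ℤ)) := by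
    have h4 := h1.sub h2
    convert h4 using 1
    ring
  have hu : IsUnit ((dpoly 1 L : Polynomial ℤ) : PowerSeries ℤ) := by
    rw [PowerSeries.isUnit_iff_constantCoeff, coe_dpoly]
    simp
  have h4 := hu.dvd_mul_left.1 h3
  rw [PowerSeries.X_pow_dvd_iff] at h4
  have h5 := h4 n (by omega)
  rw [map_sub, sub_eq_zero, Polynomial.coeff_coe] at h5
  rw [h5, (g a L n (by omega)).1]

end Pool.Agent.N570.MI
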